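import Pool.Agent.TH435.BF.Three

/-!
# Quadruple covers by six even subgraphs: identifications of cubic graphs bipartite up to three edges

`MGraph 3 ends`: loopless cubic multigraph on `Fin n` (edges `Fin m`) with at least three edges leaving
every odd vertex set (a bridgeless cubic graph).  The graph `G` in the statement arises from it by
identifying the vertices with the same value of `f`; the degree of `w` in an edge set counts the
incidences of its edges with the vertices `v` with `f v = w`, so that loops count twice.
-/

set_option autoImplicit false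

namespace Pool.Agent.Results.MP_40718a_co.NearlyBipartite

open H76FC Finset

/-- Let `G₀` be a bridgeless cubic multigraph which becomes bipartite after deleting at most three
edges, and let `G` arise from `G₀` by identifying vertices in any way (`f` maps a vertex to its class;
edges may become loops or parallel).  Then `G` has six even subgraphs such that every edge lies in
exactly four of them. -/
theorem result {n m : ℕ} (ends : Fin m → Sym2 (Fin n)) (hG : MGraph 3 ends)
    (T : Finset (Fin m)) (hT : T.card ≤ 3) (c : Fin n → Bool)
    (hc : ∀ e, e ∉ T → ∀ u v, ends e = s(u, v) → c u ≠ c v) {W : Type} (f : Fin n → W) :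
    ∃ C : Fin 6 → Set (Fin m),
      (∀ (i : Fin 6) (w : W),
        Even {x : Fin n × Fin m | f x.1 = w ∧ x.2 ∈ C i ∧ x.1 ∈ ends x.2}.ncard) ∧
      ∀ e : Fin m, {i : Fin 6 | e ∈ C i}.ncard = 4 := by
  classical
  obtain ⟨M, hM1, hM2⟩ : ∃ M : Fin 6 → Set (Fin m),
      (∀ i v, ∃! e, e ∈ M i ∧ v ∈ ends e) ∧ ∀ e, {i | e ∈ M i}.ncard = 2 :=
    Pool.Agent.TH435.BF.mcover_sides ends hG T hT c hc
  refine ⟨fun i => (M i)ᶜ, ?_, ?_⟩
  · intro i w
    have hdeg : ∀ v : Fin n, ((univ : Finset (Fin m)).filter
        (fun e => e ∉ M i ∧ v ∈ ends e)).card = 2 := by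
      intro v
      have h3 : ((univ : Finset (Fin m)).filter (fun e => v ∈ ends e)).card = 3 := by
        have := hG.2.1 v
        rwa [Set.ncard_eq_toFinset_card', Set.toFinset_ofPred] at this
      obtain ⟨e₀, he₀, huniq⟩ := hM1 i v
      have h1 : ((univ : Finset (Fin m)).filter (fun e => e ∈ M i ∧ v ∈ ends e)).card = 1 := by
        rw [card_eq_one]
        refine ⟨e₀, ?_⟩
        ext e
        simp only [mem_filter, mem_univ, true_and, mem_singleton]
        constructor
        · intro h; exact huniq e h
        · rintro rfl; exact he₀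
      have h2 := card_filter_add_card_filter_not (s := (univ : Finset (Fin m)).filter (fun e => v ∈ ends e))
        (fun e => e ∈ M i)
      rw [filter_filter, filter_filter, h3] at h2
      have h4 : ((univ : Finset (Fin m)).filter (fun e => v ∈ ends e ∧ e ∈ M i)) =
          (univ : Finset (Fin m)).filter (fun e => e ∈ M i ∧ v ∈ ends e) :=
        filter_congr fun e _ => And.comm
      have h5 : ((univ : Finset (Fin m)).filter (fun e => v ∈ ends e ∧ e ∉ M i)) =
          (univ : Finset (Fin m)).filter (fun e => e ∉ M i ∧ v ∈ ends e) :=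
        filter_congr fun e _ => And.comm
      rw [h4, h5, h1] at h2
      omega
    rw [Set.ncard_eq_toFinset_card', Set.toFinset_ofPred, card_filter, Fintype.sum_prod_type]
    refine even_sum _ fun v _ => ?_
    by_cases hv : f v = w
    · have h6 : ∑ y : Fin m, (if f v = w ∧ y ∈ (M i)ᶜ ∧ v ∈ ends y then 1 else 0) = 2 := by
        rw [← card_filter, ← hdeg v]
        congr 1
        refine filter_congr fun e _ => ?_
        simp only [hv, true_and, Set.mem_compl_iff]
      rw [h6]
      exact ⟨1, rfl⟩
    · have h6 : ∑ y : Fin m, (if f v = w ∧ y ∈ (M i)ᶜ ∧ v ∈ ends y then 1 else 0) = 0 := by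
        refine sum_eq_zero fun e _ => ?_
        rw [if_neg (fun h => hv h.1)]
      rw [h6]
      exact ⟨0, rfl⟩
  · intro e
    have h1 := hM2 e
    rw [Set.ncard_eq_toFinset_card'] at h1 ⊢
    have h2 := card_filter_add_card_filter_not (s := (univ : Finset (Fin 6))) (fun i => e ∈ M i)
    rw [card_univ, Fintype.card_fin] at h2
    have h3 : Set.toFinset {i : Fin 6 | e ∈ (M i)ᶜ} =
        (univ : Finset (Fin 6)).filter (fun i => ¬ e ∈ M i) := by
      ext i
      simp
    have h4 : Set.toFinset {i : Fin 6 | e ∈ M i} =
        (univ : Finset (Fin 6)).filter (fun i => e ∈ M i) := by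
      ext i
      simp
    rw [h4] at h1
    rw [h3]
    omega

end Pool.Agent.Results.MP_40718a_co.NearlyBipartite
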