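import Pool.Agent.TH372.BFR.Final12

/-!
Reducible configurations for Jaeger's conjecture on quadruple covers by six even subgraphs
(equivalently, for cubic graphs, Fulkerson's conjecture): the local structure of a cubic
2-edge-connected graph without such a cover and with the fewest vertices.

Proof. Let `G` be a smallest counterexample. Cuts with two or three edges that separate at least
two vertices from at least two others are excluded by contracting the two sides. For an induced
subgraph `X` with `k ≤ 7` outgoing edges the six perfect matchings of a smaller graph, in which `X`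
is replaced by a smaller piece (or by edges joining the ends of the outgoing edges), give a
colouring of the part outside `X`. In it two of the six matchings can be switched along each path
of their symmetric difference; the paths pair up the outgoing edges that belong to exactly one of
the two matchings. A table, checked by the kernel, shows that whatever the pairings are, finitely
many switches lead to a colouring of the outgoing edges that extends to `X`. This excludes a
triangle, a quadrilateral and twenty larger graphs. A search, checked by the kernel, shows that a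
set of 7, 9, 10 or 12 vertices spanning at least 8, 11, 12 or 15 edges spans one of the excluded
graphs.
-/

set_option autoImplicit false

namespace Pool.Agent.Results.MP_40718a_co.ReducibleConfigurations

open Pool.Agent.TH372.BFR

/-- Let `G` be a smallest counterexample (2-edge-connected cubic graphs, fewest vertices) to
Jaeger's conjecture on quadruple covers by six even subgraphs.

* If at most 5 edges leave a set of vertices `Z` then `Z` or its complement has at most 5 vertices
  or both have at least 15 vertices.
* If 6 edges leave `Z` then `Z` or its complement has at most 6 or exactly 8 vertices or both have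
  at least 14 vertices.
* At least 7 edges leave every set of 7, 9, 11 or 13 vertices, and at least 8 edges leave every set
  of 10 or 12 vertices.
* Every cycle of length five of `G` has a vertex in common with at most one other cycle of length
  five (cycles with the same vertices are identified).
* `G` has no two vertices joined by three internally disjoint paths of length three. -/
theorem result {V E : Type} [Fintype V] [Fintype E] (s t : E → V)
    (hG : IsSmallestCounterexample s t) :
    (∀ Z : Set V, Nat.card {e : E // ¬ (s e ∈ Z ↔ t e ∈ Z)} ≤ 5 →
      Nat.card Z ≤ 5 ∨ Nat.card ↥Zᶜ ≤ 5 ∨ (15 ≤ Nat.card Z ∧ 15 ≤ Nat.card ↥Zᶜ)) ∧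
    (∀ Z : Set V, Nat.card {e : E // ¬ (s e ∈ Z ↔ t e ∈ Z)} = 6 →
      (Nat.card Z ≤ 6 ∨ Nat.card Z = 8) ∨ (Nat.card ↥Zᶜ ≤ 6 ∨ Nat.card ↥Zᶜ = 8) ∨
        (14 ≤ Nat.card Z ∧ 14 ≤ Nat.card ↥Zᶜ)) ∧
    (∀ Z : Set V, Nat.card Z ∈ ({7, 9, 11, 13} : Set ℕ) →
      7 ≤ Nat.card {e : E // ¬ (s e ∈ Z ↔ t e ∈ Z)}) ∧
    (∀ Z : Set V, Nat.card Z ∈ ({10, 12} : Set ℕ) →
      8 ≤ Nat.card {e : E // ¬ (s e ∈ Z ↔ t e ∈ Z)}) ∧
    (∀ C₀ C₁ C₂ : Fin 5 → V, IsFiveCycle s t C₀ → IsFiveCycle s t C₁ → IsFiveCycle s t C₂ →
      (Set.range C₀ ∩ Set.range C₁).Nonempty → (Set.range C₀ ∩ Set.range C₂).Nonempty →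
      Set.range C₀ ≠ Set.range C₁ → Set.range C₀ ≠ Set.range C₂ →
      Set.range C₁ = Set.range C₂) ∧
    ¬ HasSub s t 8 [(0, 2), (2, 3), (3, 1), (0, 4), (4, 5), (5, 1), (0, 6), (6, 7), (7, 1)] := by
  have h := smallest_of hG
  exact ⟨five_cut h, six_cut h, odd_sets h, even_sets h, five_cycles h, no_theta333 h⟩

end Pool.Agent.Results.MP_40718a_co.ReducibleConfigurations
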