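import Pool.Agent.TH362.FO.Main

/-!
# Quadruple covers by six even subgraphs: graphs with at most twelve edge cuts of size three

Every bridgeless multigraph which has at most sixteen vertices of odd degree, or at most twelve edge
cuts of size three, or more generally no thirteen pairwise disjoint vertex sets with pairwise
different boundaries of size three, has six even subgraphs such that every edge is in exactly four
of them.

Proof. Such a graph has a nowhere-zero 4-flow, or it can be contracted to the Petersen graph (with
further components possible) so that three edges leave each of the ten classes. In the first case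
take the supports of three Klein flows twice. In the second case one may glue along the cuts with
three edges: the pattern of the six subgraphs on such a cut is unique up to the numbering. This
reduces to smaller graphs and to the Petersen graph itself.
-/

set_option autoImplicit false

namespace Pool.Agent.Results.MP_40718a_co.TwelveThreeCuts

open Finset

/-- the edges with exactly one end in `Y` -/
def boundary {V E : Type} [DecidableEq V] [Fintype E] (src dst : E → V) (Y : Finset V) :
    Finset E :=
  univ.filter (fun e => ¬ (src e ∈ Y ↔ dst e ∈ Y))

/-- the degree of `v` in the set of edges `F`, where a loop counts twice -/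
def deg {V E : Type} [DecidableEq V] (src dst : E → V) (F : Finset E) (v : V) : ℕ :=
  ∑ e ∈ F, ((if src e = v then 1 else 0) + (if dst e = v then 1 else 0))

theorem result (V E : Type) [Fintype V] [DecidableEq V] [Fintype E] [DecidableEq E]
    (src dst : E → V) (hb : ∀ Y : Finset V, (boundary src dst Y).card ≠ 1)
    (h : (univ.filter (fun v => Odd (deg src dst univ v))).card ≤ 16 ∨
      ∀ X : Fin 13 → Finset V, (∀ i j, i ≠ j → Disjoint (X i) (X j)) →
        (∀ i j, i ≠ j → boundary src dst (X i) ≠ boundary src dst (X j)) →
        ∃ i, (boundary src dst (X i)).card ≠ 3) :
    ∃ C : Fin 6 → Finset E, (∀ i v, Even (deg src dst (C i) v)) ∧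
      ∀ e, (univ.filter fun i => e ∈ C i).card = 4 := by
  have hc : ∀ x : V → Bool, TH362.TF.cut src dst univ x =
      boundary src dst (univ.filter (fun v => x v = true)) := by
    intro x
    unfold TH362.TF.cut boundary
    refine Finset.filter_congr fun e _ => ?_
    simp only [Finset.mem_filter, Finset.mem_univ, true_and]
    cases x (src e) <;> cases x (dst e) <;> simp
  obtain ⟨C, _, h2, h3⟩ := TH362.FO.ful_main src dst univ
    (fun x => by rw [hc]; exact hb _) (by
      rcases h with h | h
      · exact Or.inl h
      · refine Or.inr ?_
        rintro ⟨X, h1, h2, h3⟩
        obtain ⟨i, hi⟩ := h (fun i => univ.filter (fun v => X i v = true))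
          (fun i j hij => Finset.disjoint_left.2 fun v hv hv' =>
            h1 i j hij v ⟨(Finset.mem_filter.1 hv).2, (Finset.mem_filter.1 hv').2⟩)
          (fun i j hij => by rw [← hc, ← hc]; exact h2 i j hij)
        apply hi
        rw [← hc]
        exact h3 i)
  exact ⟨C, h2, fun e => h3 e (mem_univ e)⟩

/-- the case of at most twelve edge cuts of size three -/
theorem few_cuts (V E : Type) [Fintype V] [DecidableEq V] [Fintype E] [DecidableEq E]
    (src dst : E → V) (hb : ∀ Y : Finset V, (boundary src dst Y).card ≠ 1)
    (h : ((univ.image (boundary src dst)).filter (fun C => C.card = 3)).card ≤ 12) :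
    ∃ C : Fin 6 → Finset E, (∀ i v, Even (deg src dst (C i) v)) ∧
      ∀ e, (univ.filter fun i => e ∈ C i).card = 4 := by
  refine result V E src dst hb (Or.inr fun X _ hX => ?_)
  by_contra hcon
  push Not at hcon
  have h13 := Finset.card_le_card_of_injOn (s := (univ : Finset (Fin 13)))
    (t := (univ.image (boundary src dst)).filter (fun C => C.card = 3))
    (fun i => boundary src dst (X i))
    (fun i _ => by
      simp only [Finset.coe_filter, Finset.mem_image, Finset.mem_univ, true_and,
        Set.mem_ofPred_eq]
      exact ⟨⟨X i, rfl⟩, hcon i⟩)
    (fun i _ j _ hij => by
      by_contra hne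
      exact hX i j hne hij)
  rw [Finset.card_univ, Fintype.card_fin] at h13
  omega

end Pool.Agent.Results.MP_40718a_co.TwelveThreeCuts
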